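import Pool.Agent.Lib.MP_7c4fde_an.Transport

/-!
# Rank-one perturbations of a quasinilpotent operator on `ℓ^1`

An operator on a given isomorphic copy of `ℓ^1` with powers of arbitrarily fast decay, without
nontrivial closed invariant subspaces, all of whose rank-one perturbations have infinitely many
eigenvalues.
-/

set_option autoImplicit false

namespace Pool.Agent.Results.MP_7c4fde_an.RankOneEigenvalues

theorem result {X : Type*} [NormedAddCommGroup X] [NormedSpace ℂ X]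
    (e : X ≃L[ℂ] lp (fun _ : ℕ => ℂ) 1) (ε : ℕ → ℝ) (hε : ∀ n, 0 < ε n) :
    ∃ T : X →L[ℂ] X, (∀ n, 1 ≤ n → ‖T ^ n‖ ≤ ε n) ∧ spectrum ℂ T = {0} ∧
      (∀ M : Submodule ℂ X, IsClosed (M : Set X) → (∀ x ∈ M, T x ∈ M) → M = ⊥ ∨ M = ⊤) ∧
      ∀ F : X →L[ℂ] X, Module.finrank ℂ (LinearMap.range (F : X →ₗ[ℂ] X)) = 1 →
        {μ : ℂ | ∃ u : X, u ≠ 0 ∧ (T + F) u = μ • u}.Infinite ∧ spectrum ℂ (T + F) ≠ {0} := by
  obtain ⟨T, h1, h2, h3, h4⟩ := Pool.Agent.Lib.MP_7c4fde_an.strong_answer_iso e ε hε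
  refine ⟨T, h1, h2, h3, fun F hF => ⟨h4 F hF, fun hspec => ?_⟩⟩
  apply h4 F hF
  apply (Set.finite_singleton (0 : ℂ)).subset
  rintro μ ⟨u, hu0, hu⟩
  rw [← hspec, spectrum.mem_iff]
  rintro ⟨G, hG⟩
  apply hu0
  have h5 : (algebraMap ℂ (X →L[ℂ] X) μ - (T + F)) u = 0 := by
    rw [_root_.sub_apply, hu, Algebra.algebraMap_eq_smul_one, _root_.smul_apply]
    exact sub_self _
  have h6 : (G⁻¹.val * G.val) u = 0 := by
    rw [hG]
    exact (congrArg (G⁻¹.val) h5).trans (map_zero _)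
  rw [Units.inv_mul] at h6
  exact h6

end Pool.Agent.Results.MP_7c4fde_an.RankOneEigenvalues
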